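import Pool.Agent.Tang.Main

/-!
# A superpolynomial lower bound for the chromatic number of tangency graphs of unit balls

For all large `d` there is a finite system of nonoverlapping unit balls in `ℝ^d` whose tangency
graph has chromatic number at least `exp ((log d)^2 / (1152 log log d))`.
-/

set_option autoImplicit false

namespace Pool.Agent.Results.MP_ac2800_co.SuperpolyTangency

open Pool.Agent.Tang

/-- There is `d₀` such that for every `d ≥ d₀` some finite system `C` of nonoverlapping unit balls
in `ℝ^d` has a tangency graph which can be properly coloured with `k` colours only if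
`k ≥ exp ((log d)^2 / (1152 log log d))`. -/
theorem result : ∃ d₀ : ℕ, ∀ d : ℕ, d₀ ≤ d →
    ∃ C : Set (EuclideanSpace ℝ (Fin d)), C.Finite ∧ IsUnitBallSystem C ∧
      ∀ k : ℕ, (tangencyGraph C).Colorable k →
        Real.exp (Real.log d ^ 2 / (1152 * Real.log (Real.log d))) ≤ k :=
  main_quasi

end Pool.Agent.Results.MP_ac2800_co.SuperpolyTangency
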